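import Pool.Agent.AT3.Stmts1
import Pool.Agent.Helper30_KF.Mul

/-!
# Squad AT3, row INR: integrality of `χ(u b^)/d`
-/

open scoped BigOperators

noncomputable section

namespace Pool.Agent.PP.T3.H63

open Pool.Agent.Helper51_AWC Pool.Agent.Helper79_WRA Pool.Agent.PP Pool.Agent.PP.KF
open Pool.Agent.PP.K9 Pool.Agent.PP.K9.H97 Pool.Agent.PP.H75

attribute [local instance] Ideal.Quotient.field

/-- a central element acts by a scalar -/
theorem cent_root {C : Type} [Group C] {θ : C → ℂ} (hθ : θ ∈ Irr C) {z : C}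
    (hz : ∀ c, z * c = c * z) {q : ℕ} (hq : z ^ q = 1) :
    ∃ k : ℂ, k ^ q = 1 ∧ ∀ (j : ℕ) (c : C), θ (z ^ j * c) = k ^ j * θ c := by
  obtain ⟨n, ρ, hρ, rfl⟩ := hθ
  obtain ⟨k, hk⟩ := schur_scalar ρ (ρ z) (by
    intro g
    have h1 : ρ z * ρ g = ρ g * ρ z := by rw [← map_mul, ← map_mul, hz]
    exact h1)
  have h1 : ∀ c, ρ.character (z * c) = k * ρ.character c := by
    intro c
    show LinearMap.trace ℂ _ (ρ (z * c)) = k * LinearMap.trace ℂ _ (ρ c)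
    rw [map_mul, hk, smul_mul_assoc, map_smul, smul_eq_mul]
    rfl
  have h2 : ρ.character 1 ≠ 0 := irr_one_ne (mem_Irr_of_irreducible ρ)
  have h3 : ∀ (j : ℕ) (c : C), ρ.character (z ^ j * c) = k ^ j * ρ.character c := by
    intro j
    induction j with
    | zero => intro c; rw [pow_zero, one_mul, pow_zero, one_mul]
    | succ j ih =>
      intro c
      rw [pow_succ', mul_assoc, h1, ih, pow_succ', mul_assoc]
  refine ⟨k, ?_, h3⟩
  have e := h3 q 1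
  rw [hq, one_mul] at e
  exact mul_right_cancel₀ h2 (by rw [one_mul]; exact e.symm)

theorem inr : InrStmt := by
  intro M _ G _ _ u q hq hu b hb d hd ζ hζ χ hχ
  classical
  have := Fintype.ofFinite G
  have := Fintype.ofFinite (Cu u)
  obtain ⟨b', hb'⟩ : ∃ b' : Cu u → FF M, b' = fun t : Cu u => b t := ⟨_, rfl⟩
  have hS : (IrrE M b').Finite := irr_finite'.subset (fun θ h => h.1)
  obtain ⟨uC, huC⟩ : ∃ uC : Cu u, (uC : G) = u :=
    ⟨⟨u, Subgroup.mem_centralizer_singleton_iff.2 rfl⟩, rfl⟩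
  have hz : ∀ c : Cu u, uC * c = c * uC := by
    intro c
    apply Subtype.ext
    show (uC : G) * c = c * uC
    rw [huC]
    exact (Subgroup.mem_centralizer_singleton_iff.1 c.2).symm
  have hzq : uC ^ q = 1 := by
    apply Subtype.ext
    rw [Subgroup.coe_pow, huC, hu, Subgroup.coe_one]
  -- the exponents and the multiplicities
  have h1 : ∀ θ ∈ hS.toFinset, ∃ i : ℕ, i < q ∧
      ∀ (j : ℕ) (c : Cu u), θ (uC ^ j * c) = (ζ ^ i) ^ j * θ c := by
    intro θ hθ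
    have hθ' : θ ∈ Irr (Cu u) := (hS.mem_toFinset.1 hθ).1
    obtain ⟨k, hk, hkj⟩ := cent_root hθ' hz hzq
    have : NeZero q := ⟨hq.ne'⟩
    obtain ⟨i, hi, rfl⟩ := hζ.eq_pow_of_pow_eq_one hk
    exact ⟨i, hi, hkj⟩
  have h2 : ∀ θ ∈ hS.toFinset, ∃ m : ℤ,
      (Nat.card (Cu u) : ℂ)⁻¹ * ∑ c : Cu u, χ c * θ c⁻¹ = m := by
    intro θ hθ
    exact KF.H30.mult_int (Cu u) hχ (hS.mem_toFinset.1 hθ).1
  choose! ix hix hix2 using h1
  choose! mu hmu using h2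
  refine ⟨fun i => ∑ θ ∈ hS.toFinset.filter (fun θ => ix θ = i), mu θ, ?_⟩
  intro j
  have e1 : gv M (Cu u) (u ^ j) b χ = ∑ c : Cu u, eh M b' c * χ (u ^ j * c) := by
    rw [gv, gbv, finsum_eq_sum_of_fintype, hb']
  have e2 : ∀ c : Cu u, eh M b' c =
      (Nat.card (Cu u) : ℂ)⁻¹ * ∑ θ ∈ hS.toFinset, (d : ℂ) * θ c⁻¹ := by
    intro c
    rw [eh, finsum_mem_eq_finite_toFinset_sum _ hS]
    congr 1
    refine Finset.sum_congr rfl fun θ hθ => ?_
    have : θ ∈ IrrE M (fun t : Cu u => b t) := by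
      have := hS.mem_toFinset.1 hθ
      rw [hb'] at this
      exact this
    rw [hd.2 θ this]
  have e3 : ∀ θ ∈ hS.toFinset, (Nat.card (Cu u) : ℂ)⁻¹ * ∑ c : Cu u, θ c⁻¹ * χ (u ^ j * c) =
      mu θ * ζ ^ (ix θ * j) := by
    intro θ hθ
    rw [← hmu θ hθ, ← Equiv.sum_comp (Equiv.mulLeft (uC ^ j))
      (fun c : Cu u => χ c * θ c⁻¹), mul_assoc, Finset.sum_mul]
    refine congrArg ((Nat.card (Cu u) : ℂ)⁻¹ * ·) (Finset.sum_congr rfl fun c _ => ?_)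
    show θ c⁻¹ * χ (u ^ j * c) = χ ((uC ^ j * c : Cu u) : G) * θ (uC ^ j * c)⁻¹ * ζ ^ (ix θ * j)
    have a1 : ((uC ^ j * c : Cu u) : G) = u ^ j * c := by
      rw [Subgroup.coe_mul, Subgroup.coe_pow, huC]
    have hcomm : ∀ (c : Cu u), uC ^ j * c = c * uC ^ j := fun c =>
      (Commute.pow_left (hz c) j)
    have a2 : θ c⁻¹ = (ζ ^ (ix θ)) ^ j * θ (uC ^ j * c)⁻¹ := by
      rw [← hix2 θ hθ, mul_inv_rev, ← mul_assoc, hcomm c⁻¹, mul_assoc, mul_inv_cancel, mul_one]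
    rw [a1, a2, pow_mul]
    ring
  rw [e1]
  simp only [e2]
  have e4 : ∑ c : Cu u, (Nat.card (Cu u) : ℂ)⁻¹ * (∑ θ ∈ hS.toFinset, (d : ℂ) * θ c⁻¹) *
      χ (u ^ j * c) = ∑ θ ∈ hS.toFinset, (d : ℂ) * ((Nat.card (Cu u) : ℂ)⁻¹ *
        ∑ c : Cu u, θ c⁻¹ * χ (u ^ j * c)) := by
    simp_rw [Finset.mul_sum, Finset.sum_mul]
    rw [Finset.sum_comm]
    refine Finset.sum_congr rfl fun θ _ => Finset.sum_congr rfl fun c _ => ?_
    ring
  rw [e4, ← Finset.mul_sum]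
  congr 1
  rw [Finset.sum_congr rfl e3]
  rw [← Finset.sum_fiberwise_of_maps_to (s := hS.toFinset) (t := Finset.range q) (g := ix)
    (fun θ hθ => Finset.mem_range.2 (hix θ hθ))]
  refine Finset.sum_congr rfl fun i _ => ?_
  rw [Int.cast_sum, Finset.sum_mul]
  refine Finset.sum_congr rfl fun θ hθ => ?_
  rw [(Finset.mem_filter.1 hθ).2]

end Pool.Agent.PP.T3.H63
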