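import Pool.Agent.Helper91_AT3.Defs
import Pool.Agent.Helper75_AT.Perm

set_option autoImplicit false
set_option linter.unusedSectionVars false

namespace Pool.Agent.H63AT3

open MvPolynomial Pool.Agent.H91AT

variable {p n : ℕ}

lemma linF_pow_mem [hp : Fact p.Prime] (v : Fin n → ZMod p) :
    AT75.linF p n v ^ p ∈ AT75.Ipow p n := by
  rw [AT75.linF_apply, sum_pow_char]
  apply Ideal.sum_mem
  intro i _
  rw [smul_pow, MvPolynomial.smul_eq_C_mul]
  apply Ideal.mul_mem_left
  exact Ideal.subset_span ⟨i, rfl⟩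

lemma dbl_univ (i : Fin n) : (dbl p (Finset.univ : Finset (Fin n))) i = p - 1 := by
  unfold dbl
  rw [Finsupp.finsetSum_apply, Finset.sum_eq_single i]
  · rw [Finsupp.single_eq_same]
  · intro j _ hj
    rw [Finsupp.single_apply, if_neg hj]
  · intro h
    exact absurd (Finset.mem_univ i) h

/-- the coefficient functional kills the ideal of the p-th powers -/
lemma Fn_Ipow [hp : Fact p.Prime] (f : MvPolynomial (Fin n) (ZMod p))
    (hf : f ∈ AT75.Ipow p n) : Fn p (Finset.univ : Finset (Fin n)) f = 0 := by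
  unfold AT75.Ipow at hf
  obtain ⟨c, rfl⟩ := Ideal.mem_span_range_iff_exists_fun.1 hf
  rw [map_sum]
  apply Finset.sum_eq_zero
  intro i _
  show coeff (dbl p Finset.univ) (c i * X i ^ p) = 0
  rw [X_pow_eq_monomial, coeff_mul_monomial', if_neg]
  intro h
  have h1 := h i
  rw [dbl_univ, Finsupp.single_eq_same] at h1
  have := hp.out.pos
  omega

/-- the algebra map of a matrix -/
noncomputable def phi (P : Matrix (Fin n) (Fin n) (ZMod p)) :
    MvPolynomial (Fin n) (ZMod p) →ₐ[ZMod p] MvPolynomial (Fin n) (ZMod p) :=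
  aeval (fun j => AT75.linF p n (fun i => P i j))

lemma phi_linF [Fact p.Prime] (P : Matrix (Fin n) (Fin n) (ZMod p)) (b : Fin n → ZMod p) :
    phi P (AT75.linF p n b) = AT75.linF p n (P.mulVec b) := by
  have h1 : P.mulVec b = ∑ j, b j • (fun i => P i j) := by
    funext i
    simp [Matrix.mulVec, dotProduct, mul_comm]
  rw [h1, map_sum, AT75.linF_apply b, map_sum]
  apply Finset.sum_congr rfl
  intro j _
  rw [map_smul, map_smul]
  unfold phi
  rw [aeval_X]

lemma phi_Ipow [hp : Fact p.Prime] (P : Matrix (Fin n) (Fin n) (ZMod p))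
    (f : MvPolynomial (Fin n) (ZMod p)) (hf : f ∈ AT75.Ipow p n) : phi P f ∈ AT75.Ipow p n := by
  unfold AT75.Ipow at hf
  obtain ⟨c, rfl⟩ := Ideal.mem_span_range_iff_exists_fun.1 hf
  rw [map_sum]
  apply Ideal.sum_mem
  intro i _
  rw [map_mul, map_pow]
  apply Ideal.mul_mem_left
  have h1 : phi P (X i) = AT75.linF p n (fun k => P k i) := by
    unfold phi
    rw [aeval_X]
  rw [h1]
  exact linF_pow_mem _

/-- the passage from a good set of columns of `P * B` to the frozen conclusion for `B` -/
theorem fin_row [hp : Fact p.Prime] (B : Fin p → Matrix (Fin n) (Fin n) (ZMod p))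
    (P : Matrix (Fin n) (Fin n) (ZMod p))
    (a : Fin p × Fin n → (Fin n → ZMod p)) (ha : ∀ c k, a c k = (P * B c.1) k c.2)
    (C : Finset (Fin p × Fin n)) (hC : C.card = n)
    (hli : LinearIndepOn (ZMod p) a (C : Set (Fin p × Fin n)))
    (hF : Fn p (Finset.univ : Finset (Fin n)) (pr a (Finset.univ \ C)) ≠ 0) :
    ∃ f : Fin (p - 1) × Fin n → Fin p × Fin n, Function.Injective f ∧
      Set.range f = ((C : Set (Fin p × Fin n)))ᶜ ∧
      Matrix.permanent
        (Matrix.of (fun (r c : Fin (p - 1) × Fin n) => B (f c).1 r.2 (f c).2)) ≠ 0 ∧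
      LinearIndepOn (ZMod p) (fun c : Fin p × Fin n => (fun k => B c.1 k c.2 : Fin n → ZMod p))
        (C : Set (Fin p × Fin n)) := by
  classical
  set b : Fin p × Fin n → (Fin n → ZMod p) := fun c k => B c.1 k c.2 with hb
  have hab : ∀ c, a c = P.mulVec (b c) := by
    intro c
    funext k
    rw [ha]
    rfl
  -- the enumeration of the complement
  have hcard : Fintype.card (Fin (p - 1) × Fin n) =
      Fintype.card ((Finset.univ \ C : Finset (Fin p × Fin n))) := by
    rw [Fintype.card_coe, Finset.card_sdiff_of_subset (Finset.subset_univ C), hC]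
    simp only [Finset.card_univ, Fintype.card_prod, Fintype.card_fin]
    rw [Nat.sub_mul, one_mul]
  let e : (Fin (p - 1) × Fin n) ≃ (Finset.univ \ C : Finset (Fin p × Fin n)) :=
    Fintype.equivOfCardEq hcard
  refine ⟨fun c => (e c : Fin p × Fin n), fun c c' h => e.injective (Subtype.ext h), ?_, ?_, ?_⟩
  · ext x
    constructor
    · rintro ⟨c, rfl⟩
      have h := (e c).2
      rw [Finset.mem_sdiff] at h
      exact fun hx => h.2 hx
    · intro hx
      have hx' : x ∈ (Finset.univ \ C : Finset (Fin p × Fin n)) := by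
        rw [Finset.mem_sdiff]
        exact ⟨Finset.mem_univ _, fun h => hx h⟩
      refine ⟨e.symm ⟨x, hx'⟩, ?_⟩
      show ((e (e.symm ⟨x, hx'⟩) : (Finset.univ \ C : Finset (Fin p × Fin n))) : Fin p × Fin n) = x
      rw [Equiv.apply_symm_apply]
  · apply AT75.permanent_ne (fun c => b (e c))
    intro hmem
    apply hF
    apply Fn_Ipow
    have h1 : pr a (Finset.univ \ C) = phi P (∏ c, AT75.linF p n (b (e c))) := by
      rw [map_prod]
      unfold pr
      rw [← Finset.prod_coe_sort (Finset.univ \ C)]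
      rw [← Equiv.prod_comp e (fun c : (Finset.univ \ C : Finset (Fin p × Fin n)) =>
        (lf (a c) : MvPolynomial (Fin n) (ZMod p)))]
      apply Finset.prod_congr rfl
      intro c _
      rw [phi_linF, ← hab]
      rfl
    rw [h1]
    exact phi_Ipow P _ hmem
  · have h2 : a = (P.mulVecLin : (Fin n → ZMod p) →ₗ[ZMod p] (Fin n → ZMod p)) ∘ b := by
      funext c
      rw [hab]
      rfl
    rw [h2] at hli
    exact LinearIndepOn.of_comp _ hli

end Pool.Agent.H63AT3
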