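import Mathlib

set_option autoImplicit false
set_option linter.unusedSectionVars false

namespace Pool.Agent.H63AT3

open MvPolynomial

section Coeff

variable {κ R : Type*} [Fintype κ] [DecidableEq κ] [CommRing R]

/-- the exponent vector `(1, ..., 1)` -/
noncomputable def ones (κ : Type*) [Fintype κ] [DecidableEq κ] : κ →₀ ℕ :=
  ∑ c, Finsupp.single c 1

lemma ones_apply (c : κ) : ones κ c = 1 := by
  unfold ones
  rw [Finsupp.finsetSum_apply, Finset.sum_eq_single c]
  · rw [Finsupp.single_eq_same]
  · intro j _ hj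
    rw [Finsupp.single_apply, if_neg hj]
  · intro h
    exact absurd (Finset.mem_univ c) h

/-- the exponent of an optional variable -/
noncomputable def oe : Option κ → (κ →₀ ℕ)
  | none => 0
  | some c => Finsupp.single c 1

/-- the coefficient of an optional variable -/
def oc (M : Matrix κ κ R) (b : κ → R) (k : κ) : Option κ → R
  | none => - b k
  | some c => M k c

lemma affine_eq (M : Matrix κ κ R) (b : κ → R) (k : κ) :
    ((∑ c, C (M k c) * X c) - C (b k) : MvPolynomial κ R) =
      ∑ o : Option κ, monomial (oe o) (oc M b k o) := by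
  rw [Fintype.sum_option]
  have h1 : (monomial (oe (none : Option κ)) (oc M b k none) : MvPolynomial κ R) = - C (b k) := by
    show (monomial 0 (- b k) : MvPolynomial κ R) = _
    rw [← C_apply, C_neg]
  have h2 : ∀ c : κ, (monomial (oe (some c)) (oc M b k (some c)) : MvPolynomial κ R) =
      C (M k c) * X c := by
    intro c
    show (monomial (Finsupp.single c 1) (M k c) : MvPolynomial κ R) = _
    rw [C_mul_X_eq_monomial]
  rw [h1, Finset.sum_congr rfl (fun c _ => h2 c)]
  ring

lemma coeff_affine (M : Matrix κ κ R) (b : κ → R) :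
    coeff (ones κ) (∏ k, ((∑ c, C (M k c) * X c) - C (b k) : MvPolynomial κ R)) =
      ∑ σ : Equiv.Perm κ, ∏ k, M k (σ k) := by
  classical
  rw [Finset.prod_congr rfl (fun k _ => affine_eq M b k), Finset.prod_univ_sum,
    Fintype.piFinset_univ, coeff_sum]
  have h1 : ∀ φ : κ → Option κ, coeff (ones κ) (∏ k, (monomial (oe (φ k)) (oc M b k (φ k)) :
      MvPolynomial κ R)) = if ∑ k, oe (φ k) = ones κ then ∏ k, oc M b k (φ k) else 0 := by
    intro φ
    rw [← monomial_sum_prod, coeff_monomial]
  rw [Finset.sum_congr rfl (fun φ _ => h1 φ), ← Finset.sum_filter]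
  symm
  apply Finset.sum_bij (fun (σ : Equiv.Perm κ) _ => (fun k => some (σ k) : κ → Option κ))
  · intro σ _
    rw [Finset.mem_filter]
    refine ⟨Finset.mem_univ _, ?_⟩
    show ∑ k, Finsupp.single (σ k) 1 = ones κ
    exact Equiv.sum_comp σ (fun c => Finsupp.single c 1)
  · intro σ _ τ _ h
    ext k
    have := congrFun h k
    exact Option.some_injective _ this
  · intro φ hφ
    rw [Finset.mem_filter] at hφ
    have h2 : ∀ c, (Finset.univ.filter (fun k => φ k = some c)).card = 1 := by
      intro c
      have h3 := DFunLike.congr_fun hφ.2 c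
      rw [ones_apply, Finsupp.finsetSum_apply] at h3
      rw [← h3, Finset.card_filter]
      apply Finset.sum_congr rfl
      intro k _
      cases hk : φ k with
      | none =>
        rw [if_neg (by simp)]
        rfl
      | some d =>
        show _ = (Finsupp.single d 1 : κ →₀ ℕ) c
        rw [Finsupp.single_apply]
        by_cases h : d = c
        · rw [if_pos (by rw [h]), if_pos h]
        · rw [if_neg (fun h' => h (Option.some_injective _ h')), if_neg h]
    have h3 : ∀ c, ∃ k, φ k = some c := by
      intro c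
      obtain ⟨k, hk⟩ := Finset.card_eq_one.1 (h2 c)
      have : k ∈ Finset.univ.filter (fun k => φ k = some c) := by rw [hk]; simp
      exact ⟨k, (Finset.mem_filter.1 this).2⟩
    choose g hg using h3
    have hginj : Function.Injective g := by
      intro c d h
      have := hg c
      rw [h, hg d] at this
      exact (Option.some_injective _ this).symm
    have hgb : Function.Bijective g := Finite.injective_iff_bijective.1 hginj
    refine ⟨(Equiv.ofBijective g hgb).symm, Finset.mem_univ _, ?_⟩
    funext k
    obtain ⟨c, rfl⟩ := hgb.2 k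
    show some ((Equiv.ofBijective g hgb).symm (g c)) = φ (g c)
    rw [hg c]
    congr 1
    exact Equiv.ofBijective_symm_apply_apply g hgb c
  · intro σ _
    rfl

lemma affine_deg [Nontrivial R] (M : Matrix κ κ R) (b : κ → R) :
    (∏ k, ((∑ c, C (M k c) * X c) - C (b k) : MvPolynomial κ R)).totalDegree ≤
      Fintype.card κ := by
  refine (totalDegree_finsetProd _ _).trans ?_
  have h1 : ∀ k ∈ (Finset.univ : Finset κ),
      ((∑ c, C (M k c) * X c) - C (b k) : MvPolynomial κ R).totalDegree ≤ 1 := by
    intro k _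
    refine (totalDegree_sub _ _).trans (max_le ?_ ?_)
    · refine totalDegree_finsetSum_le ?_
      intro c _
      refine (totalDegree_mul _ _).trans ?_
      rw [totalDegree_C, totalDegree_X]
    · rw [totalDegree_C]
      exact Nat.zero_le _
  refine (Finset.sum_le_sum h1).trans ?_
  simp

end Coeff

/-- **Alon-Tarsi lemma**: an AT-basis is an additive basis, with lists of size 2. -/
theorem sums {p : ℕ} (hp : p.Prime) {n : ℕ} (A : Fin (p - 1) × Fin n → (Fin n → ZMod p))
    (hA : Matrix.permanent
      (Matrix.of (fun (r c : Fin (p - 1) × Fin n) => A c r.2)) ≠ 0)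
    (x x' : Fin (p - 1) × Fin n → ZMod p) (hx : ∀ c, x c ≠ x' c) (y : Fin n → ZMod p) :
    ∃ z : Fin (p - 1) × Fin n → ZMod p, (∀ c, z c = x c ∨ z c = x' c) ∧
      ∑ c, z c • A c = y := by
  classical
  have : Fact p.Prime := ⟨hp⟩
  set M : Matrix (Fin (p - 1) × Fin n) (Fin (p - 1) × Fin n) (ZMod p) :=
    Matrix.of (fun (k c : Fin (p - 1) × Fin n) => A c k.2) with hM
  set b : (Fin (p - 1) × Fin n) → ZMod p := fun k => y k.2 + ((k.1 : ℕ) + 1 : ℕ) with hb
  set f : MvPolynomial (Fin (p - 1) × Fin n) (ZMod p) :=
    ∏ k, ((∑ c, C (M k c) * X c) - C (b k)) with hf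
  have hco : coeff (ones (Fin (p - 1) × Fin n)) f ≠ 0 := by
    rw [hf, coeff_affine]
    have h1 : ∑ σ : Equiv.Perm (Fin (p - 1) × Fin n), ∏ k, M k (σ k) = M.permanent := by
      rw [← Matrix.permanent_transpose]
      rfl
    rw [h1]
    exact hA
  have hdeg1 : (ones (Fin (p - 1) × Fin n)).degree = Fintype.card (Fin (p - 1) × Fin n) := by
    rw [Finsupp.degree_eq_sum]
    rw [Finset.sum_congr rfl (fun c _ => ones_apply c)]
    simp
  have hdeg : f.totalDegree = (ones (Fin (p - 1) × Fin n)).degree := by
    apply le_antisymm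
    · rw [hdeg1]
      exact affine_deg M b
    · have h1 := le_totalDegree (mem_support_iff.2 hco)
      have h2 : (ones (Fin (p - 1) × Fin n)).degree = (ones (Fin (p - 1) × Fin n)).sum (fun _ e => e) := rfl
      rw [h2]
      exact h1
  obtain ⟨z, hz, hz2⟩ := combinatorial_nullstellensatz_exists_eval_nonzero f (ones (Fin (p - 1) × Fin n)) hco hdeg
    (fun c => {x c, x' c}) (fun c => by
      rw [ones_apply, Finset.card_pair (hx c)]
      norm_num)
  refine ⟨z, fun c => by simpa using hz c, ?_⟩
  funext i
  by_contra hne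
  apply hz2
  rw [hf, map_prod]
  -- the nonzero difference is some `r + 1`
  set w : ZMod p := (∑ c, z c • A c) i - y i with hw
  have hw0 : w ≠ 0 := sub_ne_zero.2 hne
  have hv : w.val ≠ 0 := by
    rw [Ne, ZMod.val_eq_zero]
    exact hw0
  have hlt : w.val < p := ZMod.val_lt w
  have hr : w.val - 1 < p - 1 := by omega
  apply Finset.prod_eq_zero (Finset.mem_univ ((⟨w.val - 1, hr⟩, i) : Fin (p - 1) × Fin n))
  rw [map_sub, map_sum, eval_C]
  have h1 : ∑ c, eval z (C (M (⟨w.val - 1, hr⟩, i) c) * X c) = (∑ c, z c • A c) i := by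
    rw [Finset.sum_apply]
    apply Finset.sum_congr rfl
    intro c _
    rw [map_mul, eval_C, eval_X]
    show A c i * z c = z c * A c i
    ring
  rw [h1]
  have h2 : b (⟨w.val - 1, hr⟩, i) = y i + w := by
    show y i + (((w.val - 1) + 1 : ℕ) : ZMod p) = y i + w
    rw [Nat.sub_add_cancel (by omega), ZMod.natCast_zmod_val]
  rw [h2, hw]
  ring

end Pool.Agent.H63AT3
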