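import Pool.Agent.Helper63_AT3.Sums

set_option autoImplicit false
set_option linter.unusedSectionVars false

namespace Pool.Agent.H63AT3

open Submodule

/-- a spanning finite family contains a basis, indexed by `Fin n` -/
lemma basis_of_span {K : Type*} [Field K] {n : ℕ} {E : Type*} (w : E → (Fin n → K)) (T : Set E)
    (h : span K (w '' T) = ⊤) :
    ∃ b : Fin n → E, (∀ k, b k ∈ T) ∧ LinearIndependent K (fun k => w (b k)) := by
  classical
  obtain ⟨s, hs, hsp, hli⟩ := exists_linearIndependent K (w '' T)
  rw [h] at hsp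
  let bas : Module.Basis s K (Fin n → K) := Module.Basis.mk hli (by
    rw [Subtype.range_coe]
    exact hsp.ge)
  have hfin : Finite s := Module.Finite.finite_basis bas
  have := Fintype.ofFinite s
  have hcard : Fintype.card s = n := by
    rw [← Module.finrank_eq_card_basis bas]
    simp
  let e : Fin n ≃ s := (Fintype.equivFinOfCardEq hcard).symm
  have h1 : ∀ k : Fin n, ∃ x ∈ T, w x = (e k : Fin n → K) := fun k => hs (e k).2
  choose b hb hw using h1
  refine ⟨b, hb, ?_⟩
  have h2 : (fun k => w (b k)) = (Subtype.val : s → (Fin n → K)) ∘ e := by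
    funext k
    exact hw k
  rw [h2]
  exact hli.comp e e.injective

/-- a connected graph spans -/
lemma span_of_connected {V E : Type*} [DecidableEq V] {n : ℕ} (x y : E → V) (T : Set E)
    (hT : (SimpleGraph.fromEdgeSet ((fun e => s(x e, y e)) '' T)).Connected)
    (ι : Fin n → V) (hι : Function.Injective ι) (r : V) (hr : ∀ k, ι k ≠ r) :
    span (ZMod 3) ((fun e => (fun k => (if x e = ι k then 1 else 0) - (if y e = ι k then 1 else 0) :
      Fin n → ZMod 3)) '' T) = ⊤ := by
  classical
  set w : E → (Fin n → ZMod 3) :=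
    fun e => (fun k => (if x e = ι k then 1 else 0) - (if y e = ι k then 1 else 0)) with hw
  set δ : V → (Fin n → ZMod 3) := fun v k => if v = ι k then 1 else 0 with hδ
  have hwδ : ∀ e, w e = δ (x e) - δ (y e) := fun e => rfl
  -- adjacent vertices
  have hadj : ∀ u v, (SimpleGraph.fromEdgeSet ((fun e => s(x e, y e)) '' T)).Adj u v →
      δ u - δ v ∈ span (ZMod 3) (w '' T) := by
    intro u v h
    rw [SimpleGraph.fromEdgeSet_adj] at h
    obtain ⟨⟨e, he, hes⟩, _⟩ := h
    have h1 : w e ∈ span (ZMod 3) (w '' T) := subset_span ⟨e, he, rfl⟩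
    have hes' : s(x e, y e) = s(u, v) := hes
    rw [Sym2.eq_iff] at hes'
    rcases hes' with ⟨h2, h3⟩ | ⟨h2, h3⟩
    · rw [← h2, ← h3, ← hwδ]
      exact h1
    · rw [← h2, ← h3]
      have h4 : δ (y e) - δ (x e) = - w e := by rw [hwδ]; abel
      rw [h4]
      exact neg_mem h1
  have hwalk : ∀ u v, (SimpleGraph.fromEdgeSet ((fun e => s(x e, y e)) '' T)).Walk u v →
      δ u - δ v ∈ span (ZMod 3) (w '' T) := by
    intro u v p
    induction p with
    | nil => rw [sub_self]; exact zero_mem _
    | cons h _ ih =>
      have := add_mem (hadj _ _ h) ih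
      rwa [sub_add_sub_cancel] at this
  have hδr : δ r = 0 := by
    funext k
    show (if r = ι k then (1 : ZMod 3) else 0) = 0
    rw [if_neg (fun h => hr k h.symm)]
  have hδι : ∀ k, δ (ι k) = Pi.single k 1 := by
    intro k
    funext l
    show (if ι k = ι l then (1 : ZMod 3) else 0) = _
    rw [Pi.single_apply]
    by_cases h : l = k
    · rw [if_pos h, if_pos (by rw [h])]
    · rw [if_neg h, if_neg (fun h' => h (hι h').symm)]
  rw [eq_top_iff]
  intro v _
  have hv : v = ∑ k, v k • (Pi.single k 1 : Fin n → ZMod 3) := by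
    funext l
    rw [Finset.sum_apply, Finset.sum_eq_single l]
    · rw [Pi.smul_apply, Pi.single_eq_same, smul_eq_mul, mul_one]
    · intro k _ hk
      rw [Pi.smul_apply, Pi.single_eq_of_ne hk.symm, smul_zero]
    · intro h
      exact absurd (Finset.mem_univ l) h
  rw [hv]
  apply sum_mem
  intro k _
  apply smul_mem
  obtain ⟨p⟩ := hT.preconnected (ι k) r
  have := hwalk _ _ p
  rw [hδr, sub_zero, hδι] at this
  exact this

/-- **Z_3-connectivity of graphs with three edge-disjoint spanning trees.** -/
theorem trees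
    (H : ∀ (n : ℕ) (B : Fin 3 → Matrix (Fin n) (Fin n) (ZMod 3)), (∀ j, (B j).det ≠ 0) →
      (∀ j c, (∃ i, ∀ k, B j k c = if k = i then 1 else 0) ∨
        (∃ i i', i ≠ i' ∧ ∀ k, B j k c = if k = i then 1 else if k = i' then -1 else 0)) →
      ∃ f : Fin 2 × Fin n → Fin 3 × Fin n, Function.Injective f ∧
        Matrix.permanent (Matrix.of (fun (r c : Fin 2 × Fin n) => B (f c).1 r.2 (f c).2)) ≠ 0)
    {V E : Type*} [Fintype V] [DecidableEq V] [Fintype E] (x y : E → V) (T : Fin 3 → Set E)
    (hd : ∀ i j, i ≠ j → Disjoint (T i) (T j))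
    (hT : ∀ j, (SimpleGraph.fromEdgeSet ((fun e => s(x e, y e)) '' T j)).Connected)
    (β : V → ZMod 3) (hβ : ∑ v, β v = 0) :
    ∃ o : E → ZMod 3, (∀ e, o e = 1 ∨ o e = -1) ∧
      ∀ v, ∑ e, o e * ((if x e = v then 1 else 0) - (if y e = v then 1 else 0)) = β v := by
  classical
  obtain ⟨r⟩ := (hT 0).nonempty
  set n := Fintype.card {v : V // v ≠ r} with hn
  let eqv : Fin n ≃ {v : V // v ≠ r} := (Fintype.equivFin _).symm
  set ι : Fin n → V := fun k => (eqv k : V) with hι
  have hιinj : Function.Injective ι := fun k l h => eqv.injective (Subtype.ext h)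
  have hιr : ∀ k, ι k ≠ r := fun k => (eqv k).2
  have hιs : ∀ v, v ≠ r → ∃ k, ι k = v := by
    intro v hv
    exact ⟨eqv.symm ⟨v, hv⟩, by show (eqv (eqv.symm ⟨v, hv⟩) : V) = v; rw [Equiv.apply_symm_apply]⟩
  set w : E → (Fin n → ZMod 3) :=
    fun e => (fun k => (if x e = ι k then 1 else 0) - (if y e = ι k then 1 else 0)) with hw
  have hex : ∀ j, ∃ b : Fin n → E, (∀ k, b k ∈ T j) ∧
      LinearIndependent (ZMod 3) (fun k => w (b k)) := fun j =>
    basis_of_span w (T j) (span_of_connected x y (T j) (hT j) ι hιinj r hιr)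
  choose b hbT hbli using hex
  -- signs
  set sg : E → ZMod 3 := fun e => if x e = r then -1 else 1 with hsg
  have hsg0 : ∀ e, sg e = 1 ∨ sg e = -1 := by
    intro e
    by_cases h : x e = r
    · right; rw [hsg]; simp [h]
    · left; rw [hsg]; simp [h]
  have hsgne : ∀ e, sg e ≠ 0 := by
    intro e
    rcases hsg0 e with h | h <;> rw [h] <;> decide
  set B : Fin 3 → Matrix (Fin n) (Fin n) (ZMod 3) :=
    fun j => Matrix.of (fun k c => sg (b j c) * w (b j c) k) with hB
  have hdet : ∀ j, (B j).det ≠ 0 := by
    intro j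
    have h1 : LinearIndependent (ZMod 3) (fun c => sg (b j c) • w (b j c)) := by
      have := (hbli j).units_smul (fun c => Units.mk0 (sg (b j c)) (hsgne _))
      exact this
    have h2 : LinearIndependent (ZMod 3) (B j).col := h1
    have h3 := Matrix.linearIndependent_cols_iff_isUnit.1 h2
    exact ((Matrix.isUnit_iff_isUnit_det _).1 h3).ne_zero
  have hne : ∀ j c, x (b j c) ≠ y (b j c) := by
    intro j c h
    apply (hbli j).ne_zero c
    funext k
    show (if x (b j c) = ι k then (1 : ZMod 3) else 0) - (if y (b j c) = ι k then 1 else 0) = 0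
    rw [h, sub_self]
  have hshape : ∀ j c, (∃ i, ∀ k, B j k c = if k = i then 1 else 0) ∨
      (∃ i i', i ≠ i' ∧ ∀ k, B j k c = if k = i then 1 else if k = i' then -1 else 0) := by
    intro j c
    by_cases h1 : x (b j c) = r
    · left
      have h2 : y (b j c) ≠ r := fun h => hne j c (h1.trans h.symm)
      obtain ⟨i, hi⟩ := hιs _ h2
      refine ⟨i, fun k => ?_⟩
      show sg (b j c) * ((if x (b j c) = ι k then (1 : ZMod 3) else 0) -
        (if y (b j c) = ι k then 1 else 0)) = _
      have h3 : sg (b j c) = -1 := by show (if x (b j c) = r then (-1 : ZMod 3) else 1) = -1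
                                      rw [if_pos h1]
      rw [h3, if_neg (fun h => hιr k (h.symm.trans h1)), ← hi]
      by_cases h4 : k = i
      · rw [if_pos (by rw [h4]), if_pos h4]; ring
      · rw [if_neg (fun h => h4 (hιinj h).symm), if_neg h4]; ring
    · obtain ⟨i, hi⟩ := hιs _ h1
      have h3 : sg (b j c) = 1 := by show (if x (b j c) = r then (-1 : ZMod 3) else 1) = 1
                                     rw [if_neg h1]
      by_cases h2 : y (b j c) = r
      · left
        refine ⟨i, fun k => ?_⟩
        show sg (b j c) * ((if x (b j c) = ι k then (1 : ZMod 3) else 0) -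
          (if y (b j c) = ι k then 1 else 0)) = _
        have h5 : ¬ (y (b j c) = ι k) := fun h => hιr k (h.symm.trans h2)
        rw [h3, if_neg h5, ← hi]
        by_cases h4 : k = i
        · rw [if_pos (by rw [h4]), if_pos h4]; ring
        · rw [if_neg (fun h => h4 (hιinj h).symm), if_neg h4]; ring
      · right
        obtain ⟨i', hi'⟩ := hιs _ h2
        refine ⟨i, i', fun h => hne j c (by rw [← hi, ← hi', h]), fun k => ?_⟩
        show sg (b j c) * ((if x (b j c) = ι k then (1 : ZMod 3) else 0) -
          (if y (b j c) = ι k then 1 else 0)) = _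
        have hii : i ≠ i' := fun h => hne j c (by rw [← hi, ← hi', h])
        rw [h3, ← hi, ← hi']
        by_cases h4 : k = i
        · have h5 : ι i' ≠ ι k := fun h => hii (by rw [← h4]; exact (hιinj h).symm)
          rw [if_pos (by rw [h4]), if_pos h4, if_neg h5]; ring
        · rw [if_neg (fun h => h4 (hιinj h).symm), if_neg h4]
          by_cases h5 : k = i'
          · rw [if_pos (by rw [h5]), if_pos h5]; ring
          · rw [if_neg (fun h => h5 (hιinj h).symm), if_neg h5]; ring
  obtain ⟨f, hf, hper⟩ := H n B hdet hshape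
  -- the edges
  set g : Fin 2 × Fin n → E := fun c => b (f c).1 (f c).2 with hg
  have hginj : Function.Injective g := by
    intro c d h
    apply hf
    have h1 : (f c).1 = (f d).1 := by
      by_contra hcon
      have h2 := Set.disjoint_left.1 (hd _ _ hcon) (hbT (f c).1 (f c).2)
      apply h2
      have h3 : b (f c).1 (f c).2 = b (f d).1 (f d).2 := h
      rw [h3]
      exact hbT _ _
    have h4 : (f c).2 = (f d).2 := by
      have h5 : b (f c).1 (f c).2 = b (f c).1 (f d).2 := by
        have h6 : b (f c).1 (f c).2 = b (f d).1 (f d).2 := h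
        rw [h6, h1]
      apply (hbli (f c).1).injective
      show w (b (f c).1 (f c).2) = w (b (f c).1 (f d).2)
      rw [h5]
    exact Prod.ext h1 h4
  have hm11 : (1 : ZMod 3) ≠ -1 := by decide
  obtain ⟨z, hz, hzs⟩ := sums (p := 3) Nat.prime_three
    (fun c : Fin 2 × Fin n => (fun k => B (f c).1 k (f c).2 : Fin n → ZMod 3)) hper
    (fun _ => 1) (fun _ => -1) (fun _ => hm11)
    (fun k => β (ι k) - ∑ e ∈ Finset.univ.filter (fun e => e ∉ Set.range g), w e k)
  set o : E → ZMod 3 := fun e => if h : e ∈ Set.range g then z h.choose * sg e else 1 with ho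
  have hog : ∀ c, o (g c) = z c * sg (g c) := by
    intro c
    have h1 : g c ∈ Set.range g := ⟨c, rfl⟩
    show (if h : g c ∈ Set.range g then z h.choose * sg (g c) else 1) = _
    rw [dif_pos h1]
    have h2 : h1.choose = c := hginj h1.choose_spec
    rw [h2]
  have hon : ∀ e, e ∉ Set.range g → o e = 1 := by
    intro e he
    show (if h : e ∈ Set.range g then z h.choose * sg e else 1) = _
    rw [dif_neg he]
  have ho1 : ∀ e, o e = 1 ∨ o e = -1 := by
    intro e
    by_cases he : e ∈ Set.range g
    · obtain ⟨c, rfl⟩ := he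
      rw [hog]
      rcases hz c with h | h <;> rcases hsg0 (g c) with h' | h' <;> rw [h, h']
      · left; ring
      · right; ring
      · right; ring
      · left; ring
    · left
      exact hon e he
  have hk : ∀ k, ∑ e, o e * w e k = β (ι k) := by
    intro k
    have h1 := congrFun hzs k
    rw [Finset.sum_apply] at h1
    rw [← Finset.sum_filter_add_sum_filter_not Finset.univ (fun e => e ∈ Set.range g)]
    have h2 : ∑ e ∈ Finset.univ.filter (fun e => e ∈ Set.range g), o e * w e k =
        ∑ c, (z c • (fun k => B (f c).1 k (f c).2 : Fin n → ZMod 3)) k := by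
      have h3 : Finset.univ.filter (fun e => e ∈ Set.range g) = Finset.univ.image g := by
        ext e
        simp
      rw [h3, Finset.sum_image (fun c _ d _ h => hginj h)]
      apply Finset.sum_congr rfl
      intro c _
      rw [hog]
      show z c * sg (g c) * w (g c) k = z c * (sg (g c) * w (g c) k)
      ring
    have h4 : ∑ e ∈ Finset.univ.filter (fun e => ¬ e ∈ Set.range g), o e * w e k =
        ∑ e ∈ Finset.univ.filter (fun e => e ∉ Set.range g), w e k := by
      apply Finset.sum_congr rfl
      intro e he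
      rw [hon e (Finset.mem_filter.1 he).2, one_mul]
    rw [h2, h4, h1]
    ring
  refine ⟨o, ho1, ?_⟩
  have hvr : ∀ v, v ≠ r →
      ∑ e, o e * ((if x e = v then 1 else 0) - (if y e = v then 1 else 0)) = β v := by
    intro v hv
    obtain ⟨k, rfl⟩ := hιs v hv
    exact hk k
  intro v
  by_cases hv : v = r
  · subst hv
    have h1 : ∑ u, ∑ e, o e * ((if x e = u then 1 else 0) - (if y e = u then 1 else 0)) = 0 := by
      rw [Finset.sum_comm]
      apply Finset.sum_eq_zero
      intro e _
      rw [← Finset.mul_sum, Finset.sum_sub_distrib]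
      simp
    rw [← Finset.add_sum_erase _ _ (Finset.mem_univ v)] at h1 hβ
    have h2 : ∑ u ∈ Finset.univ.erase v,
        ∑ e, o e * ((if x e = u then 1 else 0) - (if y e = u then 1 else 0)) =
        ∑ u ∈ Finset.univ.erase v, β u := by
      apply Finset.sum_congr rfl
      intro u hu
      exact hvr u (Finset.ne_of_mem_erase hu)
    rw [h2] at h1
    have h3 := h1.trans hβ.symm
    exact add_right_cancel h3
  · exact hvr v hv

end Pool.Agent.H63AT3
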